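import Pool.Agent.W516.K3.Defs

/-! DK-SPAN: skew endomorphisms are sums of the endomorphisms `wdg b u v`. -/

set_option autoImplicit false

namespace Pool.Agent.W440.DK

open Module
open _root_.Pool.Agent.W516.K3

theorem T_SPAN : Pool.Agent.W516.K3.S_SPAN := by
  intro F T _ _ _ _ _ b hsymm hnd x hx
  have hB : (b : LinearMap.BilinForm F T).Nondegenerate := by
    constructor
    · intro u hu
      exact hnd u hu
    · intro u hu
      exact hnd u (fun v => by rw [hsymm]; exact hu v)
  have hsym : LinearMap.BilinForm.IsSymm b := ⟨fun u v => hsymm u v⟩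
  set e := Module.finBasis F T with he
  set e' := LinearMap.BilinForm.dualBasis (b : LinearMap.BilinForm F T) hB e with he'
  have h1 : ∀ t, ∑ i, b (e' i) t • e i = t := by
    intro t
    have h2 : ∀ i, e.repr t i = b (e' i) t := by
      intro i
      conv_rhs => rw [← e.sum_repr t]
      rw [map_sum]
      simp only [map_smul, smul_eq_mul]
      have h3 : ∀ j, b (e' i) (e j) = if j = i then 1 else 0 := fun j =>
        LinearMap.BilinForm.apply_dualBasis_left hB e i j
      simp only [h3]
      simp
    simp only [← h2]
    exact e.sum_repr t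
  have h2 : ∀ t, ∑ i, b (e i) t • e' i = t := by
    intro t
    have h3 : ∀ i, e'.repr t i = b (e i) t := by
      intro i
      conv_rhs => rw [← e'.sum_repr t]
      rw [map_sum]
      simp only [map_smul, smul_eq_mul]
      have h3 : ∀ j, b (e i) (e' j) = if i = j then 1 else 0 := fun j =>
        LinearMap.BilinForm.apply_dualBasis_right hB hsym e i j
      simp only [h3]
      simp
    simp only [← h3]
    exact e'.sum_repr t
  have hx2 : x = (2 : F)⁻¹ • ∑ i, wdg b (x (e i)) (e' i) := by
    apply LinearMap.ext
    intro t
    rw [LinearMap.smul_apply, LinearMap.sum_apply]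
    have h4 : ∀ i, wdg b (x (e i)) (e' i) t = x (b (e' i) t • e i) + b (e i) (x t) • e' i := by
      intro i
      have h5 := hx (e i) t
      have h6 : b (x (e i)) t = - b (e i) (x t) := by
        rw [eq_neg_iff_add_eq_zero]
        exact h5
      simp only [wdg, LinearMap.sub_apply, LinearMap.smulRight_apply, map_smul, h6, neg_smul,
        sub_neg_eq_add]
    simp only [h4]
    rw [Finset.sum_add_distrib, ← map_sum, h1, h2, ← two_smul F, smul_smul,
      inv_mul_cancel₀ two_ne_zero, one_smul]
  rw [hx2]
  apply Submodule.smul_mem
  apply Submodule.sum_mem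
  intro i _
  exact Submodule.subset_span ⟨_, _, rfl⟩

end Pool.Agent.W440.DK
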