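import Pool.Agent.W516.K3.Defs

/-! DK-C10: the case of an element of rank two. -/

set_option autoImplicit false

namespace Pool.Agent.W440.DK

open Module
open _root_.Pool.Agent.W516.K3

section Wdg

variable {T : Type} [AddCommGroup T] [Module ℝ T] (b : T →ₗ[ℝ] T →ₗ[ℝ] ℝ)

theorem wdg_apply (u v t : T) : wdg b u v t = b v t • u - b u t • v := rfl

theorem wdg_add_left (u u' v : T) : wdg b (u + u') v = wdg b u v + wdg b u' v := by
  apply LinearMap.ext
  intro t
  rw [LinearMap.add_apply, wdg_apply, wdg_apply, wdg_apply, map_add, LinearMap.add_apply]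
  module

theorem wdg_smul_left (c : ℝ) (u v : T) : wdg b (c • u) v = c • wdg b u v := by
  apply LinearMap.ext
  intro t
  rw [LinearMap.smul_apply, wdg_apply, wdg_apply, map_smul, LinearMap.smul_apply, smul_eq_mul]
  module

theorem wdg_swap (u v : T) : wdg b u v = -wdg b v u := by
  apply LinearMap.ext
  intro t
  rw [LinearMap.neg_apply, wdg_apply, wdg_apply]
  module

theorem wdg_add_right (u v v' : T) : wdg b u (v + v') = wdg b u v + wdg b u v' := by
  rw [wdg_swap, wdg_add_left, neg_add, ← wdg_swap, ← wdg_swap]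

theorem wdg_smul_right (c : ℝ) (u v : T) : wdg b u (c • v) = c • wdg b u v := by
  rw [wdg_swap, wdg_smul_left, ← smul_neg, ← wdg_swap]

theorem wdg_self (u : T) : wdg b u u = 0 := by
  apply LinearMap.ext
  intro t
  rw [wdg_apply, sub_self, LinearMap.zero_apply]

theorem bracket_wdg {x : Module.End ℝ T} (hx : ∀ u v, b (x u) v + b u (x v) = 0) (u v : T) :
    x * wdg b u v - wdg b u v * x = wdg b (x u) v + wdg b u (x v) := by
  apply LinearMap.ext
  intro t
  have h1 : b u (x t) = -b (x u) t := by linarith [hx u t]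
  have h2 : b v (x t) = -b (x v) t := by linarith [hx v t]
  rw [LinearMap.sub_apply, Module.End.mul_apply, Module.End.mul_apply, LinearMap.add_apply,
    wdg_apply, wdg_apply, wdg_apply, wdg_apply, h1, h2, map_sub, map_smul, map_smul]
  module

end Wdg

section Main

variable {T : Type} [AddCommGroup T] [Module ℝ T] [FiniteDimensional ℝ T]
  {b : T →ₗ[ℝ] T →ₗ[ℝ] ℝ} {g : Submodule ℝ (Module.End ℝ T)} {e f : T}

/-- hyperbolic pair -/
structure Pair (b : T →ₗ[ℝ] T →ₗ[ℝ] ℝ) (g : Submodule ℝ (Module.End ℝ T)) (e f : T) : Prop where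
  ee : b e e = 0
  ff : b f f = 0
  ef : b e f = 1
  w : wdg b e f ∈ g

theorem Pair.swap (hg : Good b g) (P : Pair b g e f) : Pair b g f e where
  ee := P.ff
  ff := P.ee
  ef := by rw [hg.symm]; exact P.ef
  w := by
    rw [wdg_swap]
    exact g.neg_mem P.w

/-- the orthogonal complement of the pair -/
def T0 (b : T →ₗ[ℝ] T →ₗ[ℝ] ℝ) (e f : T) : Submodule ℝ T := LinearMap.ker (b e) ⊓ LinearMap.ker (b f)

theorem mem_T0 {t : T} : t ∈ T0 b e f ↔ b e t = 0 ∧ b f t = 0 := by
  unfold T0
  rw [Submodule.mem_inf, LinearMap.mem_ker, LinearMap.mem_ker]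

theorem T0_comm : T0 b e f = T0 b f e := inf_comm _ _

/-- the elements `p` of `T0` with `wdg b p z ∈ g` -/
def Dz (b : T →ₗ[ℝ] T →ₗ[ℝ] ℝ) (g : Submodule ℝ (Module.End ℝ T)) (e f z : T) :
    Submodule ℝ T where
  carrier := {p | p ∈ T0 b e f ∧ wdg b p z ∈ g}
  add_mem' := by
    rintro p q ⟨hp, hp'⟩ ⟨hq, hq'⟩
    refine ⟨(T0 b e f).add_mem hp hq, ?_⟩
    rw [wdg_add_left]
    exact g.add_mem hp' hq'
  zero_mem' := by
    refine ⟨(T0 b e f).zero_mem, ?_⟩
    have := wdg_smul_left b 0 (0 : T) z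
    rw [zero_smul, zero_smul] at this
    rw [this]
    exact g.zero_mem
  smul_mem' := by
    rintro c p ⟨hp, hp'⟩
    refine ⟨(T0 b e f).smul_mem c hp, ?_⟩
    rw [wdg_smul_left]
    exact g.smul_mem c hp'

theorem Dz_comm {z : T} : Dz b g e f z = Dz b g f e z := by
  ext p
  show (p ∈ T0 b e f ∧ _) ↔ (p ∈ T0 b f e ∧ _)
  rw [T0_comm]

theorem mem_bracket (hg : Good b g) {x : Module.End ℝ T} (hx : x ∈ g) {u v : T}
    (huv : wdg b u v ∈ g) : wdg b (x u) v + wdg b u (x v) ∈ g := by
  rw [← bracket_wdg b (hg.skew x hx)]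
  exact hg.bracket x hx _ huv

theorem proj (hg : Good b g) (P : Pair b g e f) (t : T) :
    t - b f t • e - b e t • f ∈ T0 b e f := by
  have hfe : b f e = 1 := by rw [hg.symm]; exact P.ef
  rw [mem_T0]
  simp only [map_sub, map_smul, smul_eq_mul, P.ee, P.ff, P.ef, hfe]
  constructor <;> ring

/-- elements of `g` which scale `e` -/
theorem stab_D (hg : Good b g) {x' : Module.End ℝ T} (hx' : x' ∈ g)
    (hT : ∀ t ∈ T0 b e f, x' t ∈ T0 b e f) {z : T} {c : ℝ} (hz : x' z = c • z) :
    ∀ d ∈ Dz b g e f z, x' d ∈ Dz b g e f z := by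
  rintro d ⟨hd, hd'⟩
  refine ⟨hT d hd, ?_⟩
  have h1 := mem_bracket hg hx' hd'
  rw [hz, wdg_smul_right] at h1
  have h2 := g.sub_mem h1 (g.smul_mem c hd')
  rwa [add_sub_cancel_right] at h2

theorem decomp (hg : Good b g) (P : Pair b g e f) {x : Module.End ℝ T} (hx : x ∈ g) :
    ∃ (α : ℝ) (p r : T) (x' : Module.End ℝ T), p ∈ Dz b g e f f ∧ r ∈ Dz b g e f e ∧ x' ∈ g ∧
      x e = α • e + p ∧ x f = -α • f + r ∧
      (∀ t ∈ T0 b e f, x t = x' t - b r t • e - b p t • f) ∧
      (∀ t ∈ T0 b e f, x' t ∈ T0 b e f) ∧ x' e = α • e ∧ x' f = -α • f := by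
  have hfe : b f e = 1 := by rw [hg.symm]; exact P.ef
  have sk := hg.skew x hx
  set α := b f (x e) with hα
  have h1 : b e (x e) = 0 := by
    have := sk e e
    rw [hg.symm (x e) e] at this
    linarith
  have h2 : b f (x f) = 0 := by
    have := sk f f
    rw [hg.symm (x f) f] at this
    linarith
  have h3 : b e (x f) = -α := by
    have := sk e f
    rw [hg.symm (x e) f] at this
    linarith
  set p := x e - α • e with hp
  set r := x f + α • f with hr
  have hpT : p ∈ T0 b e f := by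
    rw [mem_T0, hp]
    simp only [map_sub, map_smul, smul_eq_mul, P.ee, hfe, h1]
    constructor
    · ring
    · rw [← hα]
      ring
  have hrT : r ∈ T0 b e f := by
    rw [mem_T0, hr]
    simp only [map_add, map_smul, smul_eq_mul, P.ff, P.ef, h2, h3]
    constructor <;> ring
  have hxe : x e = α • e + p := by rw [hp]; abel
  have hxf : x f = -α • f + r := by rw [hr]; module
  have hp1 := mem_T0.1 hpT
  have hr1 := mem_T0.1 hrT
  -- the brackets with h
  set h := wdg b e f with hh
  have hhe : h e = e := by rw [hh, wdg_apply, hfe, P.ee]; module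
  have hhf : h f = -f := by rw [hh, wdg_apply, P.ff, P.ef]; module
  have hht : ∀ t ∈ T0 b e f, h t = 0 := by
    intro t ht
    obtain ⟨h4, h5⟩ := mem_T0.1 ht
    rw [hh, wdg_apply, h4, h5]
    module
  have hb1 : wdg b p f - wdg b r e ∈ g := by
    have h4 := mem_bracket hg hx P.w
    rw [hxe, hxf, wdg_add_left, wdg_smul_left, wdg_add_right, wdg_smul_right, wdg_swap b e r] at h4
    have e1 : α • wdg b e f + wdg b p f + (-α • wdg b e f + -wdg b r e) =
        wdg b p f - wdg b r e := by module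
    rwa [e1] at h4
  have hb2 : wdg b p f + wdg b r e ∈ g := by
    have h4 := hg.bracket h P.w _ hb1
    have e1 : h * (wdg b p f - wdg b r e) - (wdg b p f - wdg b r e) * h =
        (h * wdg b p f - wdg b p f * h) - (h * wdg b r e - wdg b r e * h) := by
      rw [mul_sub, sub_mul]
      abel
    have skh := hg.skew h P.w
    rw [e1, bracket_wdg b skh, bracket_wdg b skh, hht p hpT, hht r hrT, hhe, hhf] at h4
    have e0 : ∀ z : T, wdg b 0 z = 0 := by
      intro z
      have := wdg_smul_left b 0 (0 : T) z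
      rwa [zero_smul, zero_smul] at this
    have e2 : wdg b p (-f) = -wdg b p f := by
      have := wdg_smul_right b (-1) p f
      rwa [neg_one_smul, neg_one_smul] at this
    rw [e0, e0, e2] at h4
    have e3 : 0 + -wdg b p f - (0 + wdg b r e) = -(wdg b p f + wdg b r e) := by abel
    rw [e3] at h4
    exact (Submodule.neg_mem_iff g).1 h4
  have hpg : wdg b p f ∈ g := by
    have h4 := g.smul_mem (1 / 2 : ℝ) (g.add_mem hb1 hb2)
    have e1 : (1 / 2 : ℝ) • (wdg b p f - wdg b r e + (wdg b p f + wdg b r e)) = wdg b p f := by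
      module
    rwa [e1] at h4
  have hrg : wdg b r e ∈ g := by
    have h4 := g.smul_mem (1 / 2 : ℝ) (g.sub_mem hb2 hb1)
    have e1 : (1 / 2 : ℝ) • (wdg b p f + wdg b r e - (wdg b p f - wdg b r e)) = wdg b r e := by
      module
    rwa [e1] at h4
  set x' := x - wdg b r e - wdg b p f with hx'
  have hx'g : x' ∈ g := g.sub_mem (g.sub_mem hx hrg) hpg
  have hrb : b r e = 0 := by rw [hg.symm]; exact hr1.1
  have hrf : b r f = 0 := by rw [hg.symm]; exact hr1.2
  have hpe : b p e = 0 := by rw [hg.symm]; exact hp1.1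
  have hpf : b p f = 0 := by rw [hg.symm]; exact hp1.2
  have hx'e : x' e = α • e := by
    rw [hx', LinearMap.sub_apply, LinearMap.sub_apply, wdg_apply, wdg_apply, hxe, hrb, hpe, hfe,
      P.ee]
    module
  have hx'f : x' f = -α • f := by
    rw [hx', LinearMap.sub_apply, LinearMap.sub_apply, wdg_apply, wdg_apply, hxf, hrf, hpf, P.ef,
      P.ff]
    module
  have hx't : ∀ t ∈ T0 b e f, x t = x' t - b r t • e - b p t • f := by
    intro t ht
    obtain ⟨h4, h5⟩ := mem_T0.1 ht
    rw [hx', LinearMap.sub_apply, LinearMap.sub_apply, wdg_apply, wdg_apply, h4, h5]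
    module
  refine ⟨α, p, r, x', ⟨hpT, hpg⟩, ⟨hrT, hrg⟩, hx'g, hxe, hxf, hx't, ?_, hx'e, hx'f⟩
  intro t ht
  obtain ⟨h4, h5⟩ := mem_T0.1 ht
  have sk' := hg.skew x' hx'g
  rw [mem_T0]
  constructor
  · have := sk' e t
    rw [hx'e, map_smul, LinearMap.smul_apply, h4, smul_zero, zero_add] at this
    exact this
  · have := sk' f t
    rw [hx'f, map_smul, LinearMap.smul_apply, h5, smul_zero, zero_add] at this
    exact this

theorem sup_D (hg : Good b g) (P : Pair b g e f) :
    Dz b g e f f ⊔ Dz b g e f e = T0 b e f := by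
  have hfe : b f e = 1 := by rw [hg.symm]; exact P.ef
  have hrefl : LinearMap.IsRefl b := by
    intro u v h
    rw [hg.symm]
    exact h
  have hnd : LinearMap.BilinForm.Nondegenerate b := by
    constructor
    · intro u hu
      exact hg.nondeg u hu
    · intro u hu
      exact hg.nondeg u (fun v => by rw [hg.symm]; exact hu v)
  -- the submodule N
  set W := Dz b g e f f ⊔ Dz b g e f e with hW
  set N : Submodule ℝ T := T0 b e f ⊓ LinearMap.BilinForm.orthogonal b W with hN
  have hmem : ∀ t, t ∈ N ↔ t ∈ T0 b e f ∧ (∀ d ∈ Dz b g e f f, b d t = 0) ∧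
      ∀ d ∈ Dz b g e f e, b d t = 0 := by
    intro t
    rw [hN, Submodule.mem_inf, LinearMap.BilinForm.mem_orthogonal_iff]
    constructor
    · rintro ⟨h1, h2⟩
      exact ⟨h1, fun d hd => h2 d (Submodule.mem_sup_left hd),
        fun d hd => h2 d (Submodule.mem_sup_right hd)⟩
    · rintro ⟨h1, h2, h3⟩
      refine ⟨h1, ?_⟩
      intro d hd
      obtain ⟨d1, hd1, d2, hd2, rfl⟩ := Submodule.mem_sup.1 hd
      show b (d1 + d2) t = 0
      rw [map_add, LinearMap.add_apply, h2 d1 hd1, h3 d2 hd2, add_zero]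
  have hstab : ∀ x ∈ g, ∀ u ∈ N, x u ∈ N := by
    intro x hx u hu
    obtain ⟨α, p, r, x', hp, hr, hx'g, -, -, hxt, hx'T, hx'e, hx'f⟩ := decomp hg P hx
    rw [hmem] at hu
    obtain ⟨hu0, hu1, hu2⟩ := hu
    have e1 : x u = x' u := by
      rw [hxt u hu0, hu1 p hp, hu2 r hr]
      module
    rw [e1, hmem]
    have sk' := hg.skew x' hx'g
    refine ⟨hx'T u hu0, ?_, ?_⟩
    · intro d hd
      have h1 := hu1 _ (stab_D hg hx'g hx'T hx'f d hd)
      have := sk' d u
      linarith
    · intro d hd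
      have h1 := hu2 _ (stab_D hg hx'g hx'T hx'e d hd)
      have := sk' d u
      linarith
  have hN0 : N = ⊥ := by
    rcases hg.irr N hstab with h | h
    · exact h
    · exfalso
      have : e ∈ N := by rw [h]; trivial
      have h2 := (mem_T0.1 ((hmem e).1 this).1).2
      rw [hfe] at h2
      exact one_ne_zero h2
  -- the double orthogonal
  have hWT : W ≤ T0 b e f := sup_le (fun _ h => h.1) (fun _ h => h.1)
  apply le_antisymm hWT
  rw [← LinearMap.BilinForm.orthogonal_orthogonal hnd hrefl W]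
  intro t ht
  rw [LinearMap.BilinForm.mem_orthogonal_iff]
  intro u hu
  rw [LinearMap.BilinForm.mem_orthogonal_iff] at hu
  -- decompose u
  set u0 := u - b f u • e - b e u • f with hu0
  have hu0T : u0 ∈ T0 b e f := proj hg P u
  have hu0N : u0 ∈ N := by
    rw [hN, Submodule.mem_inf]
    refine ⟨hu0T, ?_⟩
    rw [LinearMap.BilinForm.mem_orthogonal_iff]
    intro d hd
    have hdT := mem_T0.1 (hWT hd)
    show b d u0 = 0
    have h1 : b d u = 0 := hu d hd
    rw [hu0, map_sub, map_sub, map_smul, map_smul, h1, hg.symm d e, hg.symm d f, hdT.1, hdT.2]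
    simp
  have hu00 : u0 = 0 := by
    rw [hN0] at hu0N
    exact (Submodule.mem_bot ℝ).1 hu0N
  obtain ⟨h4, h5⟩ := mem_T0.1 ht
  show b u t = 0
  have hu1 : u = b f u • e + b e u • f := by
    have : u - b f u • e - b e u • f = 0 := hu00
    rw [sub_sub, sub_eq_zero] at this
    exact this
  rw [hu1, map_add, LinearMap.add_apply, map_smul, map_smul, LinearMap.smul_apply,
    LinearMap.smul_apply, h4, h5]
  simp

theorem wdg_DD (hg : Good b g) (P : Pair b g e f) {d r : T} (hd : d ∈ Dz b g e f f)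
    (hr : r ∈ Dz b g e f e) : wdg b d r ∈ g := by
  have h1 := mem_bracket hg hr.2 hd.2
  have hd1 := mem_T0.1 hd.1
  have hr1 := mem_T0.1 hr.1
  have hrf : b r f = 0 := by rw [hg.symm]; exact hr1.2
  have e1 : wdg b r e d = -(b r d) • e := by
    rw [wdg_apply, hd1.1]
    module
  have e2 : wdg b r e f = r := by
    rw [wdg_apply, P.ef, hrf]
    module
  rw [e1, e2, wdg_smul_left] at h1
  have h2 := g.sub_mem h1 (g.smul_mem (-(b r d)) P.w)
  rwa [add_sub_cancel_left] at h2

theorem wdg_DD_T (hg : Good b g) {d r : T} (hd : d ∈ T0 b e f) (hr : r ∈ T0 b e f) :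
    (∀ t ∈ T0 b e f, wdg b d r t ∈ T0 b e f) ∧ wdg b d r e = (0 : ℝ) • e ∧
      wdg b d r f = (0 : ℝ) • f := by
  obtain ⟨h1, h2⟩ := mem_T0.1 hd
  obtain ⟨h3, h4⟩ := mem_T0.1 hr
  refine ⟨?_, ?_, ?_⟩
  · intro t ht
    rw [wdg_apply]
    exact (T0 b e f).sub_mem ((T0 b e f).smul_mem _ hd) ((T0 b e f).smul_mem _ hr)
  · rw [wdg_apply, hg.symm r e, hg.symm d e, h1, h3]
    module
  · rw [wdg_apply, hg.symm r f, hg.symm d f, h2, h4]
    module

/-- if `D f` is not isotropic it contains `D e` -/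
theorem incl (hg : Good b g) (P : Pair b g e f)
    (h : ∃ d ∈ Dz b g e f f, ∃ t ∈ Dz b g e f f, b d t ≠ 0) :
    Dz b g e f e ≤ Dz b g e f f := by
  obtain ⟨d, hd, t, ht, hdt⟩ := h
  intro r hr
  have h1 := wdg_DD hg P hd hr
  obtain ⟨h2, -, h3⟩ := wdg_DD_T hg hd.1 hr.1
  have h4 := stab_D hg h1 h2 h3 t ht
  rw [wdg_apply] at h4
  have h5 := (Dz b g e f f).sub_mem ((Dz b g e f f).smul_mem (b r t) hd) h4
  rw [sub_sub_cancel] at h5
  have h6 := (Dz b g e f f).smul_mem (b d t)⁻¹ h5
  rwa [smul_smul, inv_mul_cancel₀ hdt, one_smul] at h6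

theorem half (hg : Good b g) (P : Pair b g e f)
    (h : ∃ d ∈ Dz b g e f f, ∃ t ∈ Dz b g e f f, b d t ≠ 0) :
    (T0 b e f ≤ Dz b g e f f) ∧ (T0 b e f ≤ Dz b g e f e) := by
  have hfe : b f e = 1 := by rw [hg.symm]; exact P.ef
  have h1 := incl hg P h
  have h2 := sup_D hg P
  rw [sup_eq_left.2 h1] at h2
  refine ⟨h2.ge, ?_⟩
  by_cases hiso : ∃ d ∈ Dz b g e f e, ∃ t ∈ Dz b g e f e, b d t ≠ 0
  · have c1 : Dz b g f e f = Dz b g e f f := Dz_comm
    have c2 : Dz b g f e e = Dz b g e f e := Dz_comm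
    have hiso' : ∃ d ∈ Dz b g f e e, ∃ t ∈ Dz b g f e e, b d t ≠ 0 := by
      rw [c2]
      exact hiso
    have h3 := incl hg (P.swap hg) hiso'
    rw [c1, c2, h2] at h3
    exact h3
  · exfalso
    push Not at hiso
    -- the stable subspace
    set U : Submodule ℝ T := Submodule.span ℝ {f} ⊔ Dz b g e f e with hU
    have hfU : f ∈ U := Submodule.mem_sup_left (Submodule.mem_span_singleton_self f)
    have hDU : ∀ d ∈ Dz b g e f e, d ∈ U := fun d hd => Submodule.mem_sup_right hd
    have hstab : ∀ x ∈ g, ∀ u ∈ U, x u ∈ U := by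
      intro x hx u hu
      obtain ⟨α, p, r, x', hp, hr, hx'g, hxe, hxf, hxt, hx'T, hx'e, hx'f⟩ := decomp hg P hx
      obtain ⟨a, ha, d, hd, rfl⟩ := Submodule.mem_sup.1 hu
      obtain ⟨c, rfl⟩ := Submodule.mem_span_singleton.1 ha
      rw [map_add, map_smul, hxf, hxt d hd.1, hiso r hr d hd]
      apply U.add_mem
      · exact U.smul_mem _ (U.add_mem (U.smul_mem _ hfU) (hDU r hr))
      · apply U.sub_mem
        · apply U.sub_mem
          · exact hDU _ (stab_D hg hx'g hx'T hx'e d hd)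
          · rw [zero_smul]
            exact U.zero_mem
        · exact U.smul_mem _ hfU
    rcases hg.irr U hstab with h3 | h3
    · rw [h3] at hfU
      have : f = 0 := (Submodule.mem_bot ℝ).1 hfU
      rw [this, map_zero, LinearMap.zero_apply] at hfe
      exact zero_ne_one hfe
    · have heU : e ∈ U := by rw [h3]; trivial
      obtain ⟨a, ha, d, hd, hade⟩ := Submodule.mem_sup.1 heU
      obtain ⟨c, rfl⟩ := Submodule.mem_span_singleton.1 ha
      have h4 := (mem_T0.1 hd.1).2
      have h5 : b f (c • f + d) = 0 := by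
        rw [map_add, map_smul, P.ff, h4]
        simp
      rw [hade, hfe] at h5
      exact one_ne_zero h5

/-- isotropic subspaces of `T0` have dimension at most one -/
theorem iso_rank (hg : Good b g) (P : Pair b g e f) {D : Submodule ℝ T} (hD : D ≤ T0 b e f)
    (hiso : ∀ u ∈ D, ∀ v ∈ D, b u v = 0) : finrank ℝ D ≤ 1 := by
  have hfe : b f e = 1 := by rw [hg.symm]; exact P.ef
  have he0 : e ≠ 0 := by
    intro h
    rw [h, map_zero] at hfe
    exact zero_ne_one hfe
  have h1 := hg.witt (D ⊔ Submodule.span ℝ {e}) (by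
    intro u hu v hv
    obtain ⟨d, hd, a, ha, rfl⟩ := Submodule.mem_sup.1 hu
    obtain ⟨c, rfl⟩ := Submodule.mem_span_singleton.1 ha
    obtain ⟨d', hd', a', ha', rfl⟩ := Submodule.mem_sup.1 hv
    obtain ⟨c', rfl⟩ := Submodule.mem_span_singleton.1 ha'
    have h2 := (mem_T0.1 (hD hd)).1
    have h3 := (mem_T0.1 (hD hd')).1
    simp only [map_add, map_smul, LinearMap.add_apply, LinearMap.smul_apply, smul_eq_mul,
      hiso d hd d' hd', hg.symm d e, h2, h3, P.ee]
    ring)
  have hdisj : D ⊓ Submodule.span ℝ {e} = ⊥ := by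
    rw [eq_bot_iff]
    rintro u ⟨hu1, hu2⟩
    obtain ⟨c, rfl⟩ := Submodule.mem_span_singleton.1 hu2
    have h4 := (mem_T0.1 (hD hu1)).2
    rw [map_smul, hfe, smul_eq_mul, mul_one] at h4
    rw [h4, zero_smul]
    exact Submodule.zero_mem _
  have h5 := Submodule.finrank_sup_add_finrank_inf_eq D (Submodule.span ℝ {e})
  rw [hdisj, finrank_bot, finrank_span_singleton he0] at h5
  omega

theorem T0_rank (hg : Good b g) (P : Pair b g e f) : finrank ℝ T ≤ finrank ℝ (T0 b e f) + 2 := by
  have h1 : T0 b e f ⊔ (Submodule.span ℝ {e} ⊔ Submodule.span ℝ {f}) = ⊤ := by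
    rw [eq_top_iff]
    intro t _
    have h2 := proj hg P t
    have h3 : t = (t - b f t • e - b e t • f) + (b f t • e + b e t • f) := by abel
    rw [h3]
    apply Submodule.add_mem_sup h2
    exact Submodule.add_mem_sup (Submodule.smul_mem _ _ (Submodule.mem_span_singleton_self e))
      (Submodule.smul_mem _ _ (Submodule.mem_span_singleton_self f))
  have h2 := Submodule.finrank_add_le_finrank_add_finrank (T0 b e f)
    (Submodule.span ℝ {e} ⊔ Submodule.span ℝ {f})
  rw [h1, finrank_top] at h2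
  have h3 := Submodule.finrank_add_le_finrank_add_finrank (Submodule.span ℝ {e})
    (Submodule.span ℝ {f})
  have hfe : b f e = 1 := by rw [hg.symm]; exact P.ef
  have he0 : e ≠ 0 := by
    intro h
    rw [h, map_zero] at hfe
    exact zero_ne_one hfe
  have hf0 : f ≠ 0 := by
    intro h
    rw [h, map_zero, LinearMap.zero_apply] at hfe
    exact zero_ne_one hfe
  have h4 : finrank ℝ (Submodule.span ℝ {e}) = 1 := finrank_span_singleton he0
  have h5 : finrank ℝ (Submodule.span ℝ {f}) = 1 := finrank_span_singleton hf0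
  omega

end Main

theorem T_C10 : Pool.Agent.W516.K3.S_C10 := by
  intro T _ _ _ b g hg h5 e f hee hff hef hw u v
  have P : Pair b g e f := ⟨hee, hff, hef, hw⟩
  have hfull : (T0 b e f ≤ Dz b g e f f) ∧ (T0 b e f ≤ Dz b g e f e) := by
    by_cases h1 : ∃ d ∈ Dz b g e f f, ∃ t ∈ Dz b g e f f, b d t ≠ 0
    · exact half hg P h1
    · by_cases h2 : ∃ d ∈ Dz b g e f e, ∃ t ∈ Dz b g e f e, b d t ≠ 0
      · have c1 : Dz b g f e f = Dz b g e f f := Dz_comm
        have c2 : Dz b g f e e = Dz b g e f e := Dz_comm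
        have c3 : T0 b f e = T0 b e f := T0_comm
        have h3 := half hg (P.swap hg) (by
          rw [c2]
          exact h2)
        rw [c1, c2, c3] at h3
        exact ⟨h3.2, h3.1⟩
      · exfalso
        push Not at h1 h2
        have h3 := iso_rank hg P (D := Dz b g e f f) (fun _ h => h.1) h1
        have h4 := iso_rank hg P (D := Dz b g e f e) (fun _ h => h.1) h2
        have h6 := Submodule.finrank_add_le_finrank_add_finrank (Dz b g e f f) (Dz b g e f e)
        rw [sup_D hg P] at h6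
        have h7 := T0_rank hg P
        omega
  obtain ⟨hDf, hDe⟩ := hfull
  set u0 := u - b f u • e - b e u • f with hu0
  set v0 := v - b f v • e - b e v • f with hv0
  have hu0T : u0 ∈ T0 b e f := proj hg P u
  have hv0T : v0 ∈ T0 b e f := proj hg P v
  have hu : u = b f u • e + b e u • f + u0 := by rw [hu0]; abel
  have hv : v = b f v • e + b e v • f + v0 := by rw [hv0]; abel
  rw [hu, hv]
  have w1 : wdg b u0 v0 ∈ g := wdg_DD hg P (hDf hu0T) (hDe hv0T)
  have w2 : wdg b u0 e ∈ g := (hDe hu0T).2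
  have w3 : wdg b u0 f ∈ g := (hDf hu0T).2
  have w4 : wdg b e v0 ∈ g := by
    rw [wdg_swap]
    exact g.neg_mem (hDe hv0T).2
  have w5 : wdg b f v0 ∈ g := by
    rw [wdg_swap]
    exact g.neg_mem (hDf hv0T).2
  have w6 : wdg b f e ∈ g := (P.swap hg).w
  have key : ∀ z : T, wdg b z e ∈ g → wdg b z f ∈ g → wdg b z v0 ∈ g →
      wdg b z (b f v • e + b e v • f + v0) ∈ g := by
    intro z h1 h2 h3
    rw [wdg_add_right, wdg_add_right, wdg_smul_right, wdg_smul_right]
    exact g.add_mem (g.add_mem (g.smul_mem _ h1) (g.smul_mem _ h2)) h3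
  have z1 : wdg b e e ∈ g := by
    rw [wdg_self]
    exact g.zero_mem
  have z2 : wdg b f f ∈ g := by
    rw [wdg_self]
    exact g.zero_mem
  rw [wdg_add_left, wdg_add_left, wdg_smul_left, wdg_smul_left]
  exact g.add_mem (g.add_mem (g.smul_mem _ (key e z1 hw w4)) (g.smul_mem _ (key f w6 z2 w5)))
    (key u0 w2 w3 w1)

end Pool.Agent.W440.DK
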