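import Pool.Agent.W516.K3.Defs

/-! DK-DISC: real matrices of size two. -/

set_option autoImplicit false

namespace Pool.Agent.W440.DK

open Module
open _root_.Pool.Agent.W516.K3

theorem disc_aux {x y z x' y' z' : ℝ}
    (h : ∀ s t : ℝ, (s * x + t * x') ^ 2 + 4 * ((s * y + t * y') * (s * z + t * z')) ≤ 0) :
    y * z' = y' * z ∧ x * y' = x' * y ∧ x' * z = x * z' := by
  have h1 := h (y' - z') (z - y)
  set s := y' - z' with hs
  set t := z - y with ht
  have e : s * z + t * z' = s * y + t * y' := by
    rw [hs, ht]
    ring
  rw [e] at h1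
  have hX : s * x + t * x' = 0 := by nlinarith [sq_nonneg (s * x + t * x'), sq_nonneg (s * y + t * y')]
  have hY : s * y + t * y' = 0 := by nlinarith [sq_nonneg (s * x + t * x'), sq_nonneg (s * y + t * y')]
  have hD : x * y' - x' * y = 0 ∧ x * z' - x' * z = 0 := by
    have e1 : s * (x * y' - x' * y) = 0 := by linear_combination y' * hX - x' * hY
    have e2 : t * (x * y' - x' * y) = 0 := by linear_combination x * hY - y * hX
    have e3 : s * (x * z' - x' * z) = 0 := by
      have : s * z + t * z' = 0 := by rw [e]; exact hY
      linear_combination z' * hX - x' * this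
    have e4 : t * (x * z' - x' * z) = 0 := by
      have : s * z + t * z' = 0 := by rw [e]; exact hY
      linear_combination x * this - z * hX
    by_cases hs0 : s = 0
    · by_cases ht0 : t = 0
      · have hyz' : y' = z' := by linarith
        have hyz : y = z := by linarith
        have h2 := h 1 0
        have h3 := h 0 1
        rw [← hyz, ← hyz'] at h2 h3
        have hx0 : x = 0 := by nlinarith [sq_nonneg x, sq_nonneg y]
        have hx0' : x' = 0 := by nlinarith [sq_nonneg x', sq_nonneg y']
        rw [hx0, hx0']
        constructor <;> ring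
      · exact ⟨(mul_eq_zero.1 e2).resolve_left ht0, (mul_eq_zero.1 e4).resolve_left ht0⟩
    · exact ⟨(mul_eq_zero.1 e1).resolve_left hs0, (mul_eq_zero.1 e3).resolve_left hs0⟩
  refine ⟨?_, by linarith [hD.1], by linarith [hD.2]⟩
  have : y' * y - z' * y + (z - y) * y' = 0 := by
    have := hY
    rw [hs, ht] at this
    linarith
  linarith

theorem T_DISC : Pool.Agent.W516.K3.S_DISC := by
  intro S hS
  by_cases hsc : ∀ A ∈ S, A 0 1 = 0 ∧ A 1 0 = 0 ∧ A 0 0 = A 1 1
  · refine ⟨!![0, 1; 0, 0], ?_, ?_⟩
    · intro A hA
      obtain ⟨h1, h2, h3⟩ := hsc A hA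
      ext i j
      fin_cases i <;> fin_cases j <;>
        simp [Matrix.mul_apply, Fin.sum_univ_two, h1, h2, h3]
    · intro c hc
      have := congrFun (congrFun hc 0) 1
      simp at this
  · push Not at hsc
    obtain ⟨B, hB, hBn⟩ := hsc
    refine ⟨B, ?_, ?_⟩
    · intro A hA
      have h := disc_aux (x := A 0 0 - A 1 1) (y := A 0 1) (z := A 1 0)
        (x' := B 0 0 - B 1 1) (y' := B 0 1) (z' := B 1 0) (by
          intro s t
          have h1 := hS (s • A + t • B) (S.add_mem (S.smul_mem s hA) (S.smul_mem t hB))
          simp only [Matrix.add_apply, Matrix.smul_apply, smul_eq_mul] at h1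
          have e : s * A 0 0 + t * B 0 0 - (s * A 1 1 + t * B 1 1) =
              s * (A 0 0 - A 1 1) + t * (B 0 0 - B 1 1) := by ring
          rw [e] at h1
          exact h1)
      obtain ⟨h1, h2, h3⟩ := h
      ext i j
      fin_cases i <;> fin_cases j <;>
        simp [Matrix.mul_apply, Fin.sum_univ_two] <;> linarith
    · intro c hc
      apply hBn
      · have := congrFun (congrFun hc 0) 1
        simpa using this
      · have := congrFun (congrFun hc 1) 0
        simpa using this
      · have h0 := congrFun (congrFun hc 0) 0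
        have h1 := congrFun (congrFun hc 1) 1
        simp at h0 h1
        rw [h0, h1]

end Pool.Agent.W440.DK
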