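import Pool.Agent.W516.K3.Defs

/-! DK-HYP: there is an element which has an eigenvalue with a nonzero real part. -/

set_option autoImplicit false

namespace Pool.Agent.W440.DK

open Module
open _root_.Pool.Agent.W516.K3

theorem T_HYP : Pool.Agent.W516.K3.S_PF → Pool.Agent.W516.K3.S_CAS →
    Pool.Agent.W516.K3.S_HYP := by
  intro hPF hCAS T _ _ _ b g hgood hpos hneg
  by_contra hcon
  push Not at hcon
  obtain ⟨v, hv⟩ := hpos
  obtain ⟨w, hw⟩ := hneg
  have hb : b ≠ 0 := by
    intro h
    rw [h] at hv
    simp at hv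
  have hex : ∃ x ∈ g, x ≠ 0 := by
    by_contra hno
    push Not at hno
    have hU := hgood.irr (Submodule.span ℝ {v}) (by
      intro x hx u _
      rw [hno x hx]
      simp)
    rcases hU with h | h
    · rw [Submodule.span_singleton_eq_bot] at h
      rw [h] at hv
      simp at hv
    · have : w ∈ Submodule.span ℝ {v} := by
        rw [h]
        trivial
      obtain ⟨c, hc⟩ := Submodule.mem_span_singleton.1 this
      rw [← hc] at hw
      simp only [map_smul, LinearMap.smul_apply, smul_eq_mul] at hw
      nlinarith [mul_self_nonneg c, mul_nonneg (mul_self_nonneg c) hv.le]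
  obtain ⟨ι, hι, x, Φ, s, κ, h1, h2, h3, h4, h5⟩ := hCAS T b g hgood hb hcon hex
  rcases hPF T b hgood.symm ι x Φ h1 s κ h2 h3 h4 h5 with h | h
  · linarith [h w]
  · linarith [h v]

end Pool.Agent.W440.DK
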