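import Pool.Agent.W516.K3.Defs2

/-! DK-NT: facts on endomorphisms with purely imaginary eigenvalues. -/

set_option autoImplicit false

namespace Pool.Agent.W440.DK

open Module Polynomial
open _root_.Pool.Agent.W516.K3

/-- matrix form of the eigenvalue condition -/
def NoReM {n : Type} [Fintype n] [DecidableEq n] (M : Matrix n n ℝ) : Prop :=
  ∀ a c : ℝ, a ≠ 0 → ∀ v : n → ℝ, (M * M - (2 * a) • M + (a ^ 2 + c ^ 2) • (1 : Matrix n n ℝ)).mulVec v = 0 → v = 0

theorem eig_sq {n : Type} [Fintype n] [DecidableEq n] {M : Matrix n n ℝ} (hM : NoReM M)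
    {μ : ℂ} (hμ : μ ∈ ((M * M).map (algebraMap ℝ ℂ)).charpoly.roots) :
    μ.im = 0 ∧ μ.re ≤ 0 := by
  set C : Matrix n n ℂ := M.map (algebraMap ℝ ℂ) with hC
  have hCC : (M * M).map (algebraMap ℝ ℂ) = C * C := by
    rw [hC, Matrix.map_mul]
  have hroot : (((M * M).map (algebraMap ℝ ℂ)).charpoly).eval μ = 0 :=
    (Polynomial.mem_roots'.1 hμ).2
  rw [Matrix.eval_charpoly, hCC] at hroot
  obtain ⟨l, hl⟩ := IsAlgClosed.exists_pow_nat_eq μ (n := 2) (by norm_num)
  have hfac : Matrix.scalar n μ - C * C = (Matrix.scalar n l - C) * (Matrix.scalar n l + C) := by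
    rw [sub_mul, mul_add, mul_add, ← hl]
    have h1 : Matrix.scalar n l * C = C * Matrix.scalar n l :=
      (Matrix.scalar_commute l (fun r => mul_comm _ _) C)
    have h2 : Matrix.scalar n (l ^ 2) = Matrix.scalar n l * Matrix.scalar n l := by
      rw [← map_mul, pow_two]
    rw [h1, h2]
    abel
  rw [hfac, Matrix.det_mul] at hroot
  obtain ⟨ν, hν, hdet⟩ : ∃ ν : ℂ, ν ^ 2 = μ ∧ (Matrix.scalar n ν - C).det = 0 := by
    rcases mul_eq_zero.1 hroot with h | h
    · exact ⟨l, hl, h⟩
    · refine ⟨-l, by rw [neg_sq]; exact hl, ?_⟩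
      have : Matrix.scalar n (-l) - C = -(Matrix.scalar n l + C) := by
        rw [map_neg]
        abel
      rw [this, Matrix.det_neg, h, mul_zero]
  set a := ν.re with ha
  set c := ν.im with hc
  set Q : Matrix n n ℝ := M * M - (2 * a) • M + (a ^ 2 + c ^ 2) • (1 : Matrix n n ℝ) with hQ
  have hQC : Q.map (algebraMap ℝ ℂ) =
      (Matrix.scalar n ν - C) * (Matrix.scalar n ((starRingEnd ℂ) ν) - C) := by
    have e1 : Q.map (algebraMap ℝ ℂ) = C * C - ((2 * a : ℝ) : ℂ) • C +
        ((a ^ 2 + c ^ 2 : ℝ) : ℂ) • (1 : Matrix n n ℂ) := by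
      have e0 : ∀ i j, Q i j = (M * M) i j - (2 * a) * M i j +
          (a ^ 2 + c ^ 2) * (1 : Matrix n n ℝ) i j := fun i j => rfl
      have e00 : ∀ i j, (C * C - ((2 * a : ℝ) : ℂ) • C +
          ((a ^ 2 + c ^ 2 : ℝ) : ℂ) • (1 : Matrix n n ℂ)) i j = (C * C) i j -
          ((2 * a : ℝ) : ℂ) * C i j + ((a ^ 2 + c ^ 2 : ℝ) : ℂ) * (1 : Matrix n n ℂ) i j :=
        fun i j => rfl
      have e2 : ∀ i j, (1 : Matrix n n ℂ) i j = (((1 : Matrix n n ℝ) i j : ℝ) : ℂ) := by
        intro i j
        rw [Matrix.one_apply, Matrix.one_apply]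
        split_ifs
        · rw [Complex.ofReal_one]
        · rw [Complex.ofReal_zero]
      have e3 : ∀ i j, (C * C) i j = (((M * M) i j : ℝ) : ℂ) := by
        intro i j
        rw [← hCC]
        rfl
      have e4 : ∀ i j, C i j = ((M i j : ℝ) : ℂ) := fun i j => rfl
      apply Matrix.ext
      intro i j
      rw [e00, e2, e3, e4, Matrix.map_apply, e0]
      have e5 : ∀ r : ℝ, (algebraMap ℝ ℂ) r = (r : ℂ) := fun r => rfl
      rw [e5]
      push_cast
      ring
    have h1 : C * Matrix.scalar n ((starRingEnd ℂ) ν) = Matrix.scalar n ((starRingEnd ℂ) ν) * C :=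
      (Matrix.scalar_commute ((starRingEnd ℂ) ν) (fun r => mul_comm _ _) C).symm
    have h2 : ∀ z : ℂ, Matrix.scalar n z * C = z • C := by
      intro z
      rw [Matrix.scalar_apply, ← Matrix.smul_one_eq_diagonal, Matrix.smul_mul, one_mul]
    have h3 : Matrix.scalar n ν * Matrix.scalar n ((starRingEnd ℂ) ν) =
        ((a ^ 2 + c ^ 2 : ℝ) : ℂ) • (1 : Matrix n n ℂ) := by
      rw [← map_mul, Complex.mul_conj, Complex.normSq_apply, ← ha, ← hc,
        Matrix.smul_one_eq_diagonal, Matrix.scalar_apply]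
      congr 1
      funext i
      congr 1
      ring
    have h4 : ((2 * a : ℝ) : ℂ) • C = ν • C + ((starRingEnd ℂ) ν) • C := by
      rw [← add_smul, Complex.add_conj, ← ha]
    rw [e1, sub_mul, mul_sub, mul_sub, h1, h2, h2, h3, h4]
    abel
  have hdetQ : Q.det = 0 := by
    have h1 : (Q.map (algebraMap ℝ ℂ)).det = 0 := by
      rw [hQC, Matrix.det_mul, hdet, zero_mul]
    have h2 : algebraMap ℝ ℂ Q.det = 0 := by
      rw [RingHom.map_det]
      exact h1
    exact (map_eq_zero _).1 h2
  obtain ⟨v, hv0, hv⟩ := Matrix.exists_mulVec_eq_zero_iff.2 hdetQ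
  have ha0 : a = 0 := by
    by_contra h
    exact hv0 (hM a c h v hv)
  have hμ2 : μ = ((-(c ^ 2) : ℝ) : ℂ) := by
    rw [← hν]
    apply Complex.ext
    · rw [pow_two, Complex.mul_re, ← ha, ← hc, ha0, Complex.ofReal_re]
      ring
    · rw [pow_two, Complex.mul_im, ← ha, ← hc, ha0, Complex.ofReal_im]
      ring
  rw [hμ2, Complex.ofReal_re, Complex.ofReal_im]
  exact ⟨rfl, by nlinarith [sq_nonneg c]⟩

theorem sum_re {s : Multiset ℂ} (h : ∀ μ ∈ s, μ.im = 0 ∧ μ.re ≤ 0) :
    s.sum.im = 0 ∧ s.sum.re ≤ 0 ∧ (s.sum.re = 0 → ∀ μ ∈ s, μ = 0) := by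
  induction s using Multiset.induction_on with
  | empty => simp
  | cons a s ih =>
    have h1 := h a (Multiset.mem_cons_self a s)
    obtain ⟨h2, h3, h4⟩ := ih (fun μ hμ => h μ (Multiset.mem_cons_of_mem hμ))
    rw [Multiset.sum_cons, Complex.add_im, Complex.add_re]
    refine ⟨by rw [h1.1, h2, add_zero], by linarith [h1.2], fun h0 μ hμ => ?_⟩
    have h5 : a.re = 0 := by linarith [h1.2]
    have h6 : s.sum.re = 0 := by linarith [h1.2]
    rcases Multiset.mem_cons.1 hμ with h7 | h7
    · rw [h7]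
      exact Complex.ext h5 h1.1
    · exact h4 h6 μ h7

theorem nt_matrix {n : Type} [Fintype n] [DecidableEq n] {M : Matrix n n ℝ} (hM : NoReM M) :
    (M * M).trace ≤ 0 ∧ ((M * M).trace = 0 → IsNilpotent M) := by
  set N : Matrix n n ℂ := (M * M).map (algebraMap ℝ ℂ) with hN
  have htr : N.trace = (((M * M).trace : ℝ) : ℂ) := by
    rw [hN]
    simp only [Matrix.trace, Matrix.diag_apply, Matrix.map_apply]
    rw [← map_sum]
    rfl
  have hsum := Matrix.trace_eq_sum_roots_charpoly (A := N)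
  obtain ⟨-, h2, h3⟩ := sum_re (s := N.charpoly.roots) (fun μ hμ => eig_sq hM hμ)
  rw [← hsum, htr, Complex.ofReal_re] at h2 h3
  refine ⟨h2, fun h0 => ?_⟩
  have hroots := h3 h0
  have hch : N.charpoly = X ^ (Fintype.card n) := by
    have hs : N.charpoly.Splits := IsAlgClosed.splits _
    have h4 := hs.eq_prod_roots_of_monic (Matrix.charpoly_monic N)
    have h5 : N.charpoly.roots = Multiset.replicate (Multiset.card N.charpoly.roots) 0 :=
      Multiset.eq_replicate.2 ⟨rfl, hroots⟩
    rw [h5, Multiset.map_replicate, Multiset.prod_replicate, map_zero, sub_zero] at h4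
    have h6 := congrArg natDegree h4
    rw [Matrix.charpoly_natDegree_eq_dim, natDegree_X_pow] at h6
    rw [h4, h6]
  have hnil : N ^ (Fintype.card n) = 0 := by
    have := Matrix.aeval_self_charpoly N
    rw [hch, map_pow, aeval_X] at this
    exact this
  refine ⟨2 * Fintype.card n, ?_⟩
  have h7 : (M ^ (2 * Fintype.card n)).map (algebraMap ℝ ℂ) = 0 := by
    rw [pow_mul, pow_two]
    have := (RingHom.mapMatrix (algebraMap ℝ ℂ)).map_pow (M * M) (Fintype.card n)
    rw [RingHom.mapMatrix_apply, RingHom.mapMatrix_apply] at this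
    rw [this]
    exact hnil
  ext i j
  have h8 := congrFun (congrFun h7 i) j
  rw [Matrix.map_apply, Matrix.zero_apply] at h8
  rw [Matrix.zero_apply]
  exact (map_eq_zero _).1 h8

theorem nt1 (V : Type) [AddCommGroup V] [Module ℝ V] [FiniteDimensional ℝ V]
    (x : Module.End ℝ V) (hx : NoRe x) :
    LinearMap.trace ℝ V (x * x) ≤ 0 ∧ (LinearMap.trace ℝ V (x * x) = 0 → IsNilpotent x) := by
  set e := Module.finBasis ℝ V with he
  set M := LinearMap.toMatrix e e x with hM
  have hMM : LinearMap.toMatrix e e (x * x) = M * M := by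
    rw [hM, LinearMap.toMatrix_mul]
  have htr : LinearMap.trace ℝ V (x * x) = (M * M).trace := by
    rw [LinearMap.trace_eq_matrix_trace ℝ e, hMM]
  have hNM : NoReM M := by
    intro a c ha v hv
    set w : V := e.equivFun.symm v with hw
    have hwv : (fun i => e.repr w i) = v := by
      have : e.equivFun w = v := by rw [hw, LinearEquiv.apply_symm_apply]
      exact this
    have hmat : M * M - (2 * a) • M + (a ^ 2 + c ^ 2) • (1 : Matrix _ _ ℝ) =
        LinearMap.toMatrix e e (x * x - (2 * a) • x + (a ^ 2 + c ^ 2) • (1 : Module.End ℝ V)) := by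
      rw [map_add, map_sub, map_smul, map_smul, hMM, LinearMap.toMatrix_one]
    rw [hmat, ← hwv] at hv
    have h1 := LinearMap.toMatrix_mulVec_repr e e
      (x * x - (2 * a) • x + (a ^ 2 + c ^ 2) • (1 : Module.End ℝ V)) w
    have h2 : (e.repr ((x * x - (2 * a) • x + (a ^ 2 + c ^ 2) • (1 : Module.End ℝ V)) w) : _ → ℝ) = 0 := by
      rw [← h1]
      exact hv
    have h3 : (x * x - (2 * a) • x + (a ^ 2 + c ^ 2) • (1 : Module.End ℝ V)) w = 0 := by
      apply e.repr.injective
      ext i
      have := congrFun h2 i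
      rw [this, map_zero]
      rfl
    have h4 := hx a c ha w (by
      simpa [LinearMap.add_apply, LinearMap.sub_apply, Module.End.mul_apply] using h3)
    rw [← hwv, h4]
    funext i
    simp
  obtain ⟨h1, h2⟩ := nt_matrix hNM
  rw [htr]
  refine ⟨h1, fun h0 => ?_⟩
  obtain ⟨k, hk⟩ := h2 h0
  refine ⟨k, ?_⟩
  apply (LinearMap.toMatrixAlgEquiv e).injective
  rw [map_pow, map_zero]
  exact hk

theorem noRe_final {V : Type} [AddCommGroup V] [Module ℝ V] [FiniteDimensional ℝ V]
    (s1 : ∀ (V : Type) [AddCommGroup V] [Module ℝ V] [FiniteDimensional ℝ V] (A B : Module.End ℝ V),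
      A * B = B * A → NoRe A → NoRe B → NoRe (A + B))
    {A B X : Module.End ℝ V} (hA : NoRe A) (hB : NoRe B) (hc : ∀ v, A (B v) = B (A v))
    (hX : ∀ v, X v = -(A v + B v)) : NoRe X := by
  have h := s1 V A B (LinearMap.ext hc) hA hB
  intro a c ha v hv
  apply h (-a) c (neg_ne_zero.2 ha) v
  rw [← hv, hX, hX]
  simp only [LinearMap.add_apply, map_neg, map_add]
  module

theorem noRe_rho {T V : Type} [AddCommGroup T] [Module ℝ T] [FiniteDimensional ℝ T]
    [AddCommGroup V] [Module ℝ V] [FiniteDimensional ℝ V]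
    (s3 : ∀ (V W : Type) [AddCommGroup V] [Module ℝ V] [FiniteDimensional ℝ V]
      [AddCommGroup W] [Module ℝ W] [FiniteDimensional ℝ W] (A : Module.End ℝ V)
      (B : Module.End ℝ W), (∀ p : ℝ[X], aeval A p = 0 → aeval B p = 0) → NoRe A → NoRe B)
    (ρ : Module.End ℝ T → Module.End ℝ V) (hadd : ∀ x y v, ρ (x + y) v = ρ x v + ρ y v)
    (hsmul : ∀ (c : ℝ) x v, ρ (c • x) v = c • ρ x v) (hone : ∀ v, ρ 1 v = v)
    (hmul : ∀ x y v, ρ x (ρ y v) = ρ (y * x) v) {x : Module.End ℝ T} (hx : NoRe x) :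
    NoRe (ρ x) := by
  have hpow : ∀ m : ℕ, ρ x ^ m = ρ (x ^ m) := by
    intro m
    induction m with
    | zero =>
      apply LinearMap.ext
      intro v
      rw [pow_zero, pow_zero, hone]
      rfl
    | succ m ih =>
      apply LinearMap.ext
      intro v
      rw [pow_succ, ih, Module.End.mul_apply, hmul, ← pow_succ']
  have hae : ∀ p : ℝ[X], aeval (ρ x) p = ρ (aeval x p) := by
    intro p
    induction p using Polynomial.induction_on' with
    | add p q hp hq =>
      rw [map_add, map_add, hp, hq]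
      apply LinearMap.ext
      intro v
      rw [LinearMap.add_apply, hadd]
    | monomial m c =>
      rw [aeval_monomial, aeval_monomial, ← Algebra.smul_def, ← Algebra.smul_def, hpow]
      apply LinearMap.ext
      intro v
      rw [LinearMap.smul_apply, hsmul]
  apply s3 T V x (ρ x) _ hx
  intro p hp
  rw [hae, hp]
  apply LinearMap.ext
  intro v
  have := hsmul 0 0 v
  rw [zero_smul, zero_smul] at this
  rw [this]
  rfl

theorem nt2_abs {T V : Type} [AddCommGroup T] [Module ℝ T] [FiniteDimensional ℝ T]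
    [AddCommGroup V] [Module ℝ V] [FiniteDimensional ℝ V]
    (s1 : ∀ (V : Type) [AddCommGroup V] [Module ℝ V] [FiniteDimensional ℝ V] (A B : Module.End ℝ V),
      A * B = B * A → NoRe A → NoRe B → NoRe (A + B))
    (s3 : ∀ (V W : Type) [AddCommGroup V] [Module ℝ V] [FiniteDimensional ℝ V]
      [AddCommGroup W] [Module ℝ W] [FiniteDimensional ℝ W] (A : Module.End ℝ V)
      (B : Module.End ℝ W), (∀ p : ℝ[X], aeval A p = 0 → aeval B p = 0) → NoRe A → NoRe B)
    (ev : V → T → T → ℝ) (hinj : ∀ g h, (∀ u v, ev g u v = ev h u v) → g = h)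
    (eadd : ∀ g h u v, ev (g + h) u v = ev g u v + ev h u v)
    (esmul : ∀ (c : ℝ) g u v, ev (c • g) u v = c * ev g u v)
    (add1 : ∀ g u u' v, ev g (u + u') v = ev g u v + ev g u' v)
    (smul1 : ∀ g (c : ℝ) u v, ev g (c • u) v = c * ev g u v)
    (add2 : ∀ g u v v', ev g u (v + v') = ev g u v + ev g u v')
    (smul2 : ∀ g (c : ℝ) u v, ev g u (c • v) = c * ev g u v)
    (A B : Module.End ℝ T → V → V) (hA : ∀ y g u v, ev (A y g) u v = ev g (y u) v)
    (hB : ∀ y g u v, ev (B y g) u v = ev g u (y v))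
    (x : Module.End ℝ T) (X : Module.End ℝ V)
    (hX : ∀ g u v, ev (X g) u v = -ev g (x u) v - ev g u (x v)) (hx : NoRe x) : NoRe X := by
  have hneg : ∀ g u v, ev (-g) u v = -ev g u v := by
    intro g u v
    have := esmul (-1) g u v
    rw [neg_one_smul] at this
    rw [this]
    ring
  set Al : Module.End ℝ T → Module.End ℝ V := fun y =>
    { toFun := A y
      map_add' := fun g h => hinj _ _ fun u v => by rw [hA, eadd, eadd, hA, hA]
      map_smul' := fun c g => hinj _ _ fun u v => by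
        rw [hA, esmul, RingHom.id_apply, esmul, hA] } with hAl
  set Bl : Module.End ℝ T → Module.End ℝ V := fun y =>
    { toFun := B y
      map_add' := fun g h => hinj _ _ fun u v => by rw [hB, eadd, eadd, hB, hB]
      map_smul' := fun c g => hinj _ _ fun u v => by
        rw [hB, esmul, RingHom.id_apply, esmul, hB] } with hBl
  have hAl' : ∀ y g u v, ev (Al y g) u v = ev g (y u) v := hA
  have hBl' : ∀ y g u v, ev (Bl y g) u v = ev g u (y v) := hB
  refine noRe_final s1 (A := Al x) (B := Bl x) ?_ ?_ ?_ ?_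
  · refine noRe_rho s3 Al ?_ ?_ ?_ ?_ hx
    · intro y z g
      apply hinj
      intro u v
      rw [eadd, hAl', hAl', hAl', LinearMap.add_apply, add1]
    · intro c y g
      apply hinj
      intro u v
      rw [esmul, hAl', hAl', LinearMap.smul_apply, smul1]
    · intro g
      apply hinj
      intro u v
      rw [hAl', Module.End.one_apply]
    · intro y z g
      apply hinj
      intro u v
      rw [hAl', hAl', hAl', Module.End.mul_apply]
  · refine noRe_rho s3 Bl ?_ ?_ ?_ ?_ hx
    · intro y z g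
      apply hinj
      intro u v
      rw [eadd, hBl', hBl', hBl', LinearMap.add_apply, add2]
    · intro c y g
      apply hinj
      intro u v
      rw [esmul, hBl', hBl', LinearMap.smul_apply, smul2]
    · intro g
      apply hinj
      intro u v
      rw [hBl', Module.End.one_apply]
    · intro y z g
      apply hinj
      intro u v
      rw [hBl', hBl', hBl', Module.End.mul_apply]
  · intro g
    apply hinj
    intro u v
    rw [hAl', hBl', hBl', hAl']
  · intro g
    apply hinj
    intro u v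
    rw [hX, hneg, eadd, hAl', hBl']
    ring

theorem T_NT : Pool.Agent.W516.K3.S_SUM → Pool.Agent.W516.K3.S_NT := by
  intro hS
  obtain ⟨s1, -, s3, -⟩ := hS
  refine ⟨fun V _ _ _ x hx => nt1 V x hx, ?_⟩
  intro T _ _ _ x X hX hx
  exact nt2_abs (V := T →ₗ[ℝ] T →ₗ[ℝ] ℝ) s1 s3 (fun g u v => g u v)
    (fun g h H => LinearMap.ext₂ H) (fun _ _ _ _ => rfl) (fun _ _ _ _ => rfl)
    (fun g u u' v => by rw [map_add, LinearMap.add_apply])
    (fun g c u v => by rw [map_smul, LinearMap.smul_apply, smul_eq_mul])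
    (fun g u v v' => by rw [map_add])
    (fun g c u v => by rw [map_smul, smul_eq_mul])
    (fun y g => g.comp y) (fun y g => g.compl₂ y) (fun _ _ _ _ => rfl) (fun _ _ _ _ => rfl)
    x X hX hx

end Pool.Agent.W440.DK
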