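import Pool.Agent.W516.K3.Defs

/-! DK-REAL: the main result on real Lie algebras. -/

set_option autoImplicit false

namespace Pool.Agent.W440.DK

open Module
open _root_.Pool.Agent.W516.K3

theorem T_REAL : Pool.Agent.W516.K3.S_SPLIT → Pool.Agent.W516.K3.S_NORM →
    Pool.Agent.W516.K3.S_HYP → Pool.Agent.W516.K3.S_C10 → Pool.Agent.W516.K3.S_CPQ →
    Pool.Agent.W516.K3.S_C11 → Pool.Agent.W516.K3.S_SPAN → Pool.Agent.W516.K3.S_REAL := by
  intro hSPLIT hNORM hHYP hC10 hCPQ hC11 hSPAN T _ _ _ b g hg h6 hpos hneg x hx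
  obtain ⟨x0, hx0, hx0n⟩ := hHYP T b g hg hpos hneg
  obtain ⟨y, z, hyz, hcomm, hy, hz⟩ := hSPLIT T x0
  have hyg : y ∈ g := hg.hyp y z (hyz ▸ hx0) hcomm hy hz
  have hy0 : y ≠ 0 := by
    intro h
    rw [h, zero_add] at hyz
    exact hx0n (hyz ▸ hz)
  -- a wedge of a hyperbolic pair
  have hwedge : ∃ e f : T, b e e = 0 ∧ b f f = 0 ∧ b e f = 1 ∧ wdg b e f ∈ g := by
    rcases hNORM T b hg.symm hg.nondeg hg.witt y (hg.skew y hyg) hy hy0 with
      ⟨e, f, a, ha, hee, hff, hef, hya⟩ | ⟨e₁, f₁, e₂, f₂, a₁, a₂, ha₂, ha, hH, hya⟩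
    · refine ⟨e, f, hee, hff, hef, ?_⟩
      have : wdg b e f = a⁻¹ • y := by
        rw [hya, smul_smul, inv_mul_cancel₀ ha.ne', one_smul]
      rw [this]
      exact g.smul_mem _ hyg
    · rcases ha.lt_or_eq with hlt | heq
      · refine ⟨e₁, f₁, hH.e11, hH.f11, hH.ef11, ?_⟩
        exact hCPQ T b g hg h6 e₁ f₁ e₂ f₂ a₁ a₂ hH ha₂ hlt (hya ▸ hyg)
      · have : wdg b e₁ f₁ + wdg b e₂ f₂ = a₂⁻¹ • y := by
          rw [hya, heq, ← smul_add, smul_smul, inv_mul_cancel₀ (heq ▸ ha₂).ne', one_smul]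
        exact hC11 T b g hg (by omega) e₁ f₁ e₂ f₂ hH (this ▸ g.smul_mem _ hyg)
  obtain ⟨e, f, hee, hff, hef, hwg⟩ := hwedge
  have hall := hC10 T b g hg (by omega) e f hee hff hef hwg
  have hspan := hSPAN ℝ T b hg.symm hg.nondeg x hx
  have hle : Submodule.span ℝ {y | ∃ u v, y = wdg b u v} ≤ g := by
    rw [Submodule.span_le]
    rintro _ ⟨u, v, rfl⟩
    exact hall u v
  exact hle hspan

end Pool.Agent.W440.DK
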