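import Pool.Agent.W516.K3.Defs2

/-! DK-KILL: the hyperbolic part kills the forms killed by the sum. -/

set_option autoImplicit false

namespace Pool.Agent.W440.DK

open Module Polynomial
open _root_.Pool.Agent.W516.K3

theorem isHyp_zero {V : Type} [AddCommGroup V] [Module ℝ V] : IsHyp (0 : Module.End ℝ V) := by
  unfold IsHyp
  rw [eq_top_iff]
  refine le_trans ?_ (le_iSup _ (0 : ℝ))
  intro v _
  rw [Module.End.mem_eigenspace_iff]
  simp

theorem noRe_zero {V : Type} [AddCommGroup V] [Module ℝ V] : NoRe (0 : Module.End ℝ V) := by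
  intro a c ha v hv
  simp only [LinearMap.zero_apply, smul_zero, sub_zero, zero_add] at hv
  have : a ^ 2 + c ^ 2 ≠ 0 := by positivity
  exact (smul_eq_zero.1 hv).resolve_left this

theorem kill_core {V : Type} [AddCommGroup V] [Module ℝ V] [FiniteDimensional ℝ V]
    {Y Z : Module.End ℝ V} (hc : Y * Z = Z * Y) (hY : IsHyp Y) (hZ : NoRe Z) {φ : V}
    (h : (Y + Z) φ = 0) : Y φ = 0 := by
  set K : Submodule ℝ V := LinearMap.ker (Y + Z) with hK
  have hinv : ∀ x ∈ K, Y x ∈ K := by
    intro x hx
    rw [hK, LinearMap.mem_ker] at hx ⊢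
    have h1 : (Y + Z) (Y x) = Y ((Y + Z) x) := by
      have h2 : Z (Y x) = Y (Z x) := by
        have := LinearMap.congr_fun hc x
        exact this.symm
      rw [LinearMap.add_apply, LinearMap.add_apply, h2, map_add]
    rw [h1, hx, map_zero]
  have h1 := Submodule.inf_iSup_genEigenspace (p := K) (f := Y) hinv (k := 1)
  have h2 : ⨆ μ : ℝ, Y.genEigenspace μ 1 = ⊤ := hY
  rw [h2, inf_top_eq] at h1
  have h3 : K ≤ LinearMap.ker Y := by
    rw [h1]
    apply iSup_le
    intro μ v hv
    have hv1 : (Y + Z) v = 0 := hv.1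
    have hv2 : Y v = μ • v := Module.End.mem_eigenspace_iff.1 hv.2
    rw [LinearMap.mem_ker, hv2]
    by_cases hμ : μ = 0
    · rw [hμ, zero_smul]
    · have hv3 : Z v = (-μ) • v := by
        rw [LinearMap.add_apply, hv2] at hv1
        rw [neg_smul]
        exact (neg_eq_of_add_eq_zero_right hv1).symm
      have hv4 := hZ (-μ) 0 (neg_ne_zero.2 hμ) v (by
        rw [hv3, map_smul, hv3, smul_smul, smul_smul, ← sub_smul, ← add_smul]
        have : -μ * -μ - 2 * -μ * -μ + ((-μ) ^ 2 + 0 ^ 2) = 0 := by ring
        rw [this, zero_smul])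
      rw [hv4, smul_zero]
  exact h3 h

section

variable {T : Type} [AddCommGroup T] [Module ℝ T] {κ : Type} [Fintype κ] [DecidableEq κ]

/-- the action of `x` on the variable `j` -/
noncomputable def Aj (j : κ) (x : Module.End ℝ T) :
    Module.End ℝ (MultilinearMap ℝ (fun _ : κ => T) ℝ) :=
  MultilinearMap.compLinearMapₗ (Function.update (fun _ => LinearMap.id) j x)

theorem Aj_apply (j : κ) (x : Module.End ℝ T) (φ : MultilinearMap ℝ (fun _ : κ => T) ℝ)
    (v : κ → T) : Aj j x φ v = φ (Function.update v j (x (v j))) := by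
  unfold Aj
  rw [MultilinearMap.compLinearMapₗ_apply, MultilinearMap.compLinearMap_apply]
  congr 1
  funext i
  by_cases hi : i = j
  · subst hi
    simp
  · simp [hi]

theorem Aj_add (j : κ) (x y : Module.End ℝ T) : Aj j (x + y) = Aj j x + Aj j y := by
  apply LinearMap.ext
  intro φ
  apply MultilinearMap.ext
  intro v
  rw [LinearMap.add_apply, MultilinearMap.add_apply, Aj_apply, Aj_apply, Aj_apply,
    LinearMap.add_apply, MultilinearMap.map_update_add]

theorem Aj_smul (j : κ) (c : ℝ) (x : Module.End ℝ T) : Aj j (c • x) = c • Aj j x := by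
  apply LinearMap.ext
  intro φ
  apply MultilinearMap.ext
  intro v
  rw [LinearMap.smul_apply, MultilinearMap.smul_apply, Aj_apply, Aj_apply,
    LinearMap.smul_apply, MultilinearMap.map_update_smul]

theorem Aj_one (j : κ) : Aj j (1 : Module.End ℝ T) = 1 := by
  apply LinearMap.ext
  intro φ
  apply MultilinearMap.ext
  intro v
  rw [Aj_apply, Module.End.one_apply, Module.End.one_apply, Function.update_eq_self]

theorem Aj_mul (j : κ) (x y : Module.End ℝ T) : Aj j x * Aj j y = Aj j (y * x) := by
  apply LinearMap.ext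
  intro φ
  apply MultilinearMap.ext
  intro v
  rw [Module.End.mul_apply, Aj_apply, Aj_apply, Aj_apply, Function.update_self,
    Function.update_idem, Module.End.mul_apply]

theorem Aj_comm {i j : κ} (hij : i ≠ j) (x y : Module.End ℝ T) :
    Aj i x * Aj j y = Aj j y * Aj i x := by
  apply LinearMap.ext
  intro φ
  apply MultilinearMap.ext
  intro v
  rw [Module.End.mul_apply, Module.End.mul_apply, Aj_apply, Aj_apply, Aj_apply, Aj_apply,
    Function.update_of_ne hij.symm, Function.update_of_ne hij, Function.update_comm hij]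

theorem Aj_pow (j : κ) (x : Module.End ℝ T) (m : ℕ) : Aj j x ^ m = Aj j (x ^ m) := by
  induction m with
  | zero => rw [pow_zero, pow_zero, Aj_one]
  | succ m ih => rw [pow_succ, ih, Aj_mul, ← pow_succ']

theorem Aj_aeval (j : κ) (x : Module.End ℝ T) (p : ℝ[X]) :
    aeval (Aj j x) p = Aj j (aeval x p) := by
  induction p using Polynomial.induction_on' with
  | add p q hp hq => rw [map_add, map_add, hp, hq, Aj_add]
  | monomial m c =>
    rw [aeval_monomial, aeval_monomial, ← Algebra.smul_def, ← Algebra.smul_def, Aj_pow, Aj_smul]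

end

theorem T_KILL : Pool.Agent.W516.K3.S_SUM → Pool.Agent.W516.K3.S_KILL := by
  intro hS T _ _ _ κ _ _ φ y z hyz hy hz hk
  obtain ⟨h1, h2, h3, h4⟩ := hS
  have hAzero : ∀ j : κ, Aj j (0 : Module.End ℝ T) = 0 := by
    intro j
    have := Aj_smul j (0 : ℝ) (0 : Module.End ℝ T)
    rwa [zero_smul, zero_smul] at this
  have hcomm : ∀ (i j : κ) (a b : Module.End ℝ T), a * b = b * a →
      Aj i a * Aj j b = Aj j b * Aj i a := by
    intro i j a b hab
    by_cases hij : i = j
    · subst hij
      rw [Aj_mul, Aj_mul, hab]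
    · exact Aj_comm hij a b
  have hsumcomm : ∀ (s t : Finset κ) (a b : Module.End ℝ T), a * b = b * a →
      (∑ j ∈ s, Aj j a) * (∑ j ∈ t, Aj j b) = (∑ j ∈ t, Aj j b) * (∑ j ∈ s, Aj j a) := by
    intro s t a b hab
    rw [Finset.sum_mul_sum, Finset.sum_mul_sum, Finset.sum_comm]
    apply Finset.sum_congr rfl
    intro j _
    apply Finset.sum_congr rfl
    intro i _
    exact hcomm i j a b hab
  have hYs : ∀ s : Finset κ, IsHyp (∑ j ∈ s, Aj j y) := by
    intro s
    induction s using Finset.induction_on with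
    | empty =>
      rw [Finset.sum_empty]
      exact isHyp_zero
    | insert a s ha ih =>
      rw [Finset.sum_insert ha]
      apply h2 _ _ _ _ _ ih
      · have := hsumcomm {a} s y y rfl
        rwa [Finset.sum_singleton] at this
      · apply h4 T _ y (Aj a y) _ hy
        intro p hp
        rw [Aj_aeval, hp, hAzero]
  have hZs : ∀ s : Finset κ, NoRe (∑ j ∈ s, Aj j z) := by
    intro s
    induction s using Finset.induction_on with
    | empty =>
      rw [Finset.sum_empty]
      exact noRe_zero
    | insert a s ha ih =>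
      rw [Finset.sum_insert ha]
      apply h1 _ _ _ _ _ ih
      · have := hsumcomm {a} s z z rfl
        rwa [Finset.sum_singleton] at this
      · apply h3 T _ z (Aj a z) _ hz
        intro p hp
        rw [Aj_aeval, hp, hAzero]
  have hD : ∀ (x : Module.End ℝ T), KillsM x φ ↔ (∑ j, Aj j x) φ = 0 := by
    intro x
    constructor
    · intro h
      apply MultilinearMap.ext
      intro v
      have := h v
      rw [LinearMap.sum_apply, MultilinearMap.sum_apply, MultilinearMap.zero_apply]
      simp only [Aj_apply]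
      exact this
    · intro h v
      have := congrArg (fun ψ => ψ v) h
      simp only [LinearMap.sum_apply, MultilinearMap.sum_apply, MultilinearMap.zero_apply,
        Aj_apply] at this
      exact this
  rw [hD] at hk ⊢
  have e : (∑ j, Aj j (y + z) : Module.End ℝ (MultilinearMap ℝ (fun _ : κ => T) ℝ)) =
      ∑ j, Aj j y + ∑ j, Aj j z := by
    rw [← Finset.sum_add_distrib]
    apply Finset.sum_congr rfl
    intro j _
    exact Aj_add j y z
  rw [e] at hk
  exact kill_core (hsumcomm _ _ y z hyz) (hYs _) (hZs _) hk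

end Pool.Agent.W440.DK
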